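import Mathlib
import Pool.Agent.Run7.h820.UM.Fin

set_option autoImplicit false

/-!
# MP_16b0ee_an: one universal map for the strong Marshall conjecture

There is a single map `ψ₀ ∈ Σ` such that for every `A > 0` (the question is `A = 1`) the strong Marshall bound for the whole class
`Σ`, for all `a < A`, is equivalent to the bound for this one map, with or without a loss `(1/(R-1))^ε`, and to its spectral bound
`∫ |ψ₀' ^ t| ≤ (1/(R-1))^(|t|²/(4A) + ε)`, `t` complex, `|t| < 2A`. Such maps are dense in `Σ`.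

The construction. `ψ_{k+1}(z) = ψ_k((1+r) T(z)) / (1+r)` with `T(z)^N = φ(z^N)`, where `r > 0` is tiny, `N` is huge and `φ` is the
`k`-th member of a countable family of self-similar maps (each of them occurs infinitely often). Then `ψ_{k+1}` is close to `ψ_k`
away from the unit circle, and `log ψ_{k+1}'(z) = log φ'(z^N) + O(1)`. So the limit `ψ₀` has at some radii the means of every map of
the family, up to small powers. The family comes from the fractal approximation of `PolynomialJuliaSets`: if the strong Marshall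
bound fails, then some explicit inequality fails at one radius, and the self-similar map made from this violates the
spectral bound at all scales.
-/

namespace Pool.Agent.Results.MP_16b0ee_an.OneUniversalMap

open Filter Topology

/-- The point `r e^{iθ}`. -/
noncomputable def circ (r θ : ℝ) : ℂ := (r : ℂ) * Complex.exp ((θ : ℂ) * Complex.I)

/-- `ψ ∈ Σ` and `h = log ψ'` (the branch vanishing at infinity), exactly as in the problem. -/
def IsSigma (ψ h : ℂ → ℂ) : Prop :=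
  DifferentiableOn ℂ ψ {z : ℂ | 1 < ‖z‖} ∧
  Set.InjOn ψ {z : ℂ | 1 < ‖z‖} ∧
  (∃ b : ℂ, Filter.Tendsto (fun z => ψ z - z) (Bornology.cobounded ℂ) (nhds b)) ∧
  DifferentiableOn ℂ h {z : ℂ | 1 < ‖z‖} ∧
  (∀ z : ℂ, 1 < ‖z‖ → Complex.exp (h z) = deriv ψ z) ∧
  Filter.Tendsto h (Bornology.cobounded ℂ) (nhds 0)

/-- The integral of Q1. -/
noncomputable def marshall (a R : ℝ) (h : ℂ → ℂ) : ℝ :=
  (1 / (2 * Real.pi)) * ∫ θ in (0:ℝ)..(2 * Real.pi),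
    Real.exp (a * ‖h (circ R θ)‖ ^ 2 / Real.log (R ^ 2 / (R ^ 2 - 1)))

/-- The integral mean of `|ψ' ^ t| = |exp (t h)|` over the circle of radius `R`, `t` complex. -/
noncomputable def pmean (t : ℂ) (R : ℝ) (h : ℂ → ℂ) : ℝ :=
  (1 / (2 * Real.pi)) * ∫ θ in (0:ℝ)..(2 * Real.pi), ‖Complex.exp (t * h (circ R θ))‖

theorem result : ∀ (ψ₁ h₁ : ℂ → ℂ) (δ : ℝ), IsSigma ψ₁ h₁ → 0 < δ →
    ∃ ψ₀ h₀ : ℂ → ℂ, IsSigma ψ₀ h₀ ∧ (∀ z : ℂ, 1 + δ ≤ ‖z‖ → ‖h₀ z - h₁ z‖ ≤ δ) ∧ ∀ A : ℝ, 0 < A → List.TFAE [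
      ∀ a : ℝ, 0 < a → a < A → ∃ C R₀ : ℝ, 1 < R₀ ∧ ∀ R : ℝ, 1 < R → R < R₀ →
        ∀ ψ h : ℂ → ℂ, IsSigma ψ h → marshall a R h ≤ C,
      ∀ a : ℝ, 0 < a → a < A → ∃ C : ℝ, ∀ᶠ R in 𝓝[>] (1:ℝ), marshall a R h₀ ≤ C,
      ∀ a : ℝ, 0 < a → a < A → ∀ ε : ℝ, 0 < ε → ∀ᶠ R in 𝓝[>] (1:ℝ), marshall a R h₀ ≤ (1 / (R - 1)) ^ ε,
      ∀ t : ℂ, ‖t‖ < 2 * A → ∀ ε : ℝ, 0 < ε →
        ∀ᶠ R in 𝓝[>] (1:ℝ), pmean t R h₀ ≤ (1 / (R - 1)) ^ (‖t‖ ^ 2 / (4 * A) + ε)] := by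
  intro ψ₁ h₁ δ hS hδ
  obtain ⟨ψ₀, h₀, hS₀, hcl, hU⟩ := Run7.h820.UM.universal (ψ₁ := ψ₁) (h₁ := h₁) hS hδ
  exact ⟨ψ₀, h₀, hS₀, hcl, fun A hA => Run7.h820.UM.tfae_U Run7.h820.SR.pcs hS₀ hU hA⟩

end Pool.Agent.Results.MP_16b0ee_an.OneUniversalMap
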