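import Mathlib
import Pool.Agent.Run7.h820.SR.TfaeJ
import Pool.Agent.Run7.h820.SR.AsmJ

set_option autoImplicit false

/-!
# MP_16b0ee_an: the strong Marshall bound is equivalent to the spectral bound for polynomial Julia sets

For every `A > 0` (the question is `A = 1`) six statements are equivalent:
1. the strong Marshall bound (uniform over `Σ`) for all `a < A`,
2. the bound for each map of `Σ` separately, `a < A`,
3. the bound `∫ |ψ' ^ t| ≤ (1/(R-1))^(|t|²/(4A) + ε)` for each `ψ ∈ Σ`, each complex `t`, `ε > 0` and all `R` near `1`,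
4. for the Riemann maps of the basins of infinity of the polynomials below only, and only along some sequence of radii: the integral
   of the question is `≤ (1/(R-1))^ε`,
5. for these Riemann maps only, and only along some sequence of radii: the bound in 3 for `|t| < 2A`,
6. one explicit inequality for `∫ |ψ' ^ t|` at every radius `1 < R ≤ e³`, without unspecified constants.

The polynomials are monic with coefficients in the field `ℚ(i)` and have the property that a disc about `0` in the filled-in Julia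
set contains its own image and all critical values. (By the standard theory of hyperbolic polynomials their Julia sets are
quasicircles. It is a countable family of maps.)

The proof. Let `ψ ∈ Σ`, `κ > 0`, `F(z) = r (ψ(z/r) - ψ(1/v₀))`, `r = e^(-3κ)`, `|v₀| = e^(-κ)`, and write `F(1/w) = exp(γ(w))/w`. The
Faber polynomial `p` of degree `N ≥ 128 B²/κ`, `B` a bound for `γ`, satisfies `p(F(1/w)) = w^(-N) + q(w)`, and the area theorem
shows that `w^N q(w)` is very small for `|w| < e^(3κ/2)`. This remains true after replacing the lower coefficients of `p` by close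
numbers in `ℚ(i)`. A small change of variable `w = u exp(η(u))` turns the relation into `p(exp(γ'(u))/u) = u^(-N)` exactly. The
equation `A(v) = A(v^N)/N - γ'(v exp(A(v^N)/N))` is solved by iteration, and `ψ*(z) = z exp(-A(1/z))` is univalent with
`p(ψ*(z)) = ψ*(z^N)`. The logarithm of `ψ*'` is a sum of `n` terms up to a bounded error, and on the circle
`|v| = exp(-N^(-n))` the terms are nearly independent. So the means of `|ψ*' ^ t|` are at least the `n`-th powers of the mean of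
`ψ` at the one radius `R = e^(3κ)`, up to explicit factors. The base point `v₀` is chosen by an `L²` argument with the area theorem
for the two variable logarithm.
-/

namespace Pool.Agent.Results.MP_16b0ee_an.PolynomialJuliaSets

open Filter Topology

/-- The point `r e^{iθ}`. -/
noncomputable def circ (r θ : ℝ) : ℂ := (r : ℂ) * Complex.exp ((θ : ℂ) * Complex.I)

/-- `ψ ∈ Σ` and `h = log ψ'` (the branch vanishing at infinity), exactly as in the problem. -/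
def IsSigma (ψ h : ℂ → ℂ) : Prop :=
  DifferentiableOn ℂ ψ {z : ℂ | 1 < ‖z‖} ∧
  Set.InjOn ψ {z : ℂ | 1 < ‖z‖} ∧
  (∃ b : ℂ, Filter.Tendsto (fun z => ψ z - z) (Bornology.cobounded ℂ) (nhds b)) ∧
  DifferentiableOn ℂ h {z : ℂ | 1 < ‖z‖} ∧
  (∀ z : ℂ, 1 < ‖z‖ → Complex.exp (h z) = deriv ψ z) ∧
  Filter.Tendsto h (Bornology.cobounded ℂ) (nhds 0)

/-- The integral of Q1. -/
noncomputable def marshall (a R : ℝ) (h : ℂ → ℂ) : ℝ :=
  (1 / (2 * Real.pi)) * ∫ θ in (0:ℝ)..(2 * Real.pi),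
    Real.exp (a * ‖h (circ R θ)‖ ^ 2 / Real.log (R ^ 2 / (R ^ 2 - 1)))

/-- The integral mean of `|ψ' ^ t| = |exp (t h)|` over the circle of radius `R`, `t` complex. -/
noncomputable def pmean (t : ℂ) (R : ℝ) (h : ℂ → ℂ) : ℝ :=
  (1 / (2 * Real.pi)) * ∫ θ in (0:ℝ)..(2 * Real.pi), ‖Complex.exp (t * h (circ R θ))‖

/-- `ψ` is the Riemann map of the basin of infinity of a monic polynomial `P` with coefficients in `ℚ(i)`, such that for some `r`
the disc of radius `r` about `0` does not meet the basin, is mapped into itself by `P` and contains all critical values of `P`. -/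
def JuliaMap (ψ : ℂ → ℂ) : Prop := ∃ P : Polynomial ℂ, P.Monic ∧ 2 ≤ P.natDegree ∧
  (∀ k : ℕ, ∃ a b : ℚ, P.coeff k = (a : ℂ) + (b : ℂ) * Complex.I) ∧
  (∀ z : ℂ, 1 < ‖z‖ → P.eval (ψ z) = ψ (z ^ P.natDegree)) ∧
  ∃ r : ℝ, (∀ z : ℂ, 1 < ‖z‖ → r < ‖ψ z‖) ∧ (∀ x : ℂ, ‖x‖ ≤ r → ‖P.eval x‖ < r) ∧
    ∀ x : ℂ, P.derivative.eval x = 0 → ‖P.eval x‖ < r

theorem result : ∀ A : ℝ, 0 < A → List.TFAE [
    ∀ a : ℝ, 0 < a → a < A → ∃ C R₀ : ℝ, 1 < R₀ ∧ ∀ R : ℝ, 1 < R → R < R₀ →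
      ∀ ψ h : ℂ → ℂ, IsSigma ψ h → marshall a R h ≤ C,
    ∀ ψ h : ℂ → ℂ, IsSigma ψ h → ∀ a : ℝ, 0 < a → a < A → ∃ C : ℝ, ∀ᶠ R in 𝓝[>] (1:ℝ), marshall a R h ≤ C,
    ∀ ψ h : ℂ → ℂ, IsSigma ψ h → ∀ t : ℂ, ∀ ε : ℝ, 0 < ε →
      ∀ᶠ R in 𝓝[>] (1:ℝ), pmean t R h ≤ (1 / (R - 1)) ^ (‖t‖ ^ 2 / (4 * A) + ε),
    ∀ ψ h : ℂ → ℂ, IsSigma ψ h → JuliaMap ψ → ∀ a : ℝ, 0 < a → a < A → ∀ ε : ℝ, 0 < ε →
      ∃ᶠ R in 𝓝[>] (1:ℝ), marshall a R h ≤ (1 / (R - 1)) ^ ε,
    ∀ ψ h : ℂ → ℂ, IsSigma ψ h → JuliaMap ψ → ∀ t : ℂ, ‖t‖ < 2 * A → ∀ ε : ℝ, 0 < ε →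
      ∃ᶠ R in 𝓝[>] (1:ℝ), pmean t R h ≤ (1 / (R - 1)) ^ (‖t‖ ^ 2 / (4 * A) + ε),
    ∀ ψ h : ℂ → ℂ, IsSigma ψ h → ∀ κ : ℝ, 0 < κ → κ ≤ 1 → ∀ t : ℂ, ‖t‖ < 2 * A →
      Real.log (pmean t (Real.exp (3 * κ)) h) ≤
        ‖t‖ ^ 2 / (4 * A) * Real.log (⌈144 * Real.log (1 - Real.exp (-κ)) ^ 2 / κ⌉₊ : ℝ) + 2 * ‖t‖ +
          ‖t‖ * Real.sqrt (4 - 2 * Real.log (1 - Real.exp (-(6 * κ))))] := by
  intro A hA
  have a := Run7.h820.SR.tfae_all Run7.h820.SR.pcs hA
  have b := Run7.h820.SR.tfae_J Run7.h820.SR.pcsJ hA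
  have b4 := b.out 0 3
  have b5 := b.out 0 4
  have hJ : ∀ ψ : ℂ → ℂ, Run7.h820.SR.JuliaQ ψ ↔ JuliaMap ψ := by
    intro ψ
    constructor
    · rintro ⟨P, h1, h2, h3, h4, h5⟩
      exact ⟨P, h1, h2, h3, h4, h5⟩
    · rintro ⟨P, h1, h2, h3, h4, h5⟩
      exact ⟨P, h1, h2, h3, h4, h5⟩
  simp only [hJ] at b4 b5
  have a2 := a.out 0 1
  have a3 := a.out 0 2
  have a6 := a.out 0 5
  tfae_have 1 ↔ 2 := a2
  tfae_have 1 ↔ 3 := a3
  tfae_have 1 ↔ 4 := b4
  tfae_have 1 ↔ 5 := b5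
  tfae_have 1 ↔ 6 := a6
  tfae_finish

end Pool.Agent.Results.MP_16b0ee_an.PolynomialJuliaSets
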