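import Mathlib
import Pool.Agent.Run7.h506.MS.J

set_option autoImplicit false

/-!
# MP_16b0ee_an: the strong Marshall bound in holomorphic families around structured maps

Let `q = R² / (R² - 1)`. A map `ψ ∈ Σ` is called decomposed, with the parameters `K, A, μ, c, M, E`, if for `h = log ψ'`

`z h'(z) = ∑ k_j (P_j(z) - 1) + α z p'(z) / p(z) + z b'(z) + z e'(z)`,

where `∑ |k_j| ≤ K`, the `P_j` have positive real part and `P_j(∞) = 1`, `|α| ≤ μ`, `p` has positive real part (also at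
`∞`), `|b| ≤ A`, and `e` is a Bloch function with `|(1 - |z|⁻²) z e'(z) + c| ≤ M + E (1 - |z|⁻²)`.

* (1) Let `0 < a < 1`, `μ ≤ 1` and `μ a + (M + m) √a < 1`, `m = 8 k / (1 + √(1 - k²))`. There are `δ > 0` and `C` such that
  the integral of the question is at most `C` for all `R > 1` and all members `Ψ_λ`, `|λ| ≤ k`, of all holomorphic
  families `Ψ_λ ∈ Σ`, `|λ| < 1`, for which `Ψ_0` is decomposed with `K = A q ^ δ`. For `k = 0` (constant families) this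
  is a theorem on single maps. If `μ = 0` and `M + m ≤ 1`, we get the full range `0 < a < 1` of the question.
* (2) For every `a < 1` the integral is bounded for all `R > 1`, `|λ| ≤ 16 / 65` and all holomorphic families in `Σ` with
  `Re (1 + z Ψ_0''/Ψ_0') > 0`, that is, the complement of the image of `Ψ_0` is convex (for example `Ψ_0(z) = z + 1/z`).
* (3) The same for the products `Ψ_0'(z) = ∏ (1 - ζ_j / z) ^ κ_j`, `|ζ_j| ≤ 1`, `κ_j` complex, `∑ |κ_j| ≤ A q ^ δ`; these are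
  the maps onto the exteriors of polygons (with a number of corners which may grow with `R`) and their deformations.
* (4) If `Re (τ z Ψ_0' / (Ψ_0 - w)) > 0`, `Re τ > 0` (spirallike complement, starlike for real `τ`) the integral is bounded
  for `|λ| ≤ k`, `a + m √a < 1`.

By the measurable Riemann mapping theorem the maps `F ∘ ψ`, `F` a quasiconformal map of the plane with dilatation at most
`k`, conformal on the image of `ψ`, with the right normalisation at `∞`, are members of such families. Since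
`|t h| ≤ a |h|² / log q + |t|² log q / (4 a)`, the bounds also give `∫ |ψ' ^ t| ≤ C q ^ (|t|² / (4 a))` for all complex
`t`, so the inequalities of Brennan, Kraetzer and Binder hold in the cases with full range.

The proof. Let `H(v) = h(1/v)`. On the radii `1 - 2 ^ (- j)` the shells with `2 ^ (- j) Re P > 1 / (j (j + 1))`, where
`P = 1 + ∑ |k_j| P_j`, are bad. After the last bad shell `H` changes only by `α log p`, by `e` and by a bounded term, and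
at this shell it is at most `j log 2` by Goluzin's inequality. The new ingredient is a Gaussian estimate for
`e(r ζ) - e((1 - 2 ^ (- j)) r ζ)` on the set of the `ζ` for which the shell `j` is bad: the
functions `P ^ s exp (t (e(v) - e((1 - 2 ^ (- j)) v)))`, `t` complex, `s < 1`, satisfy a Riccati inequality on the circles
`|v| > 1 - 2 ^ (- j)` and their means are integrated against a Gaussian in `t`. Since `(x + y)² / L ≤ x + y² / (L - x)`, the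
Gaussian part `y` costs nothing as long as `a M² < 1`, and `a < 1` suffices for the sum over the shells. In a
holomorphic family `(1 - |v|²) v (H_λ' - H_0')` is bounded by `m` by the lemma of Schwarz and Goluzin's inequality for
`ψ''/ψ'`.
-/

namespace Pool.Agent.Results.MP_16b0ee_an.StructuredFamilies

open Filter Topology

/-- The point `r e^{iθ}`. -/
noncomputable def circ (r θ : ℝ) : ℂ := (r : ℂ) * Complex.exp ((θ : ℂ) * Complex.I)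

/-- `ψ ∈ Σ` and `h = log ψ'` (the branch vanishing at infinity), exactly as in the problem. -/
def IsSigma (ψ h : ℂ → ℂ) : Prop :=
  DifferentiableOn ℂ ψ {z : ℂ | 1 < ‖z‖} ∧
  Set.InjOn ψ {z : ℂ | 1 < ‖z‖} ∧
  (∃ b : ℂ, Tendsto (fun z => ψ z - z) (Bornology.cobounded ℂ) (𝓝 b)) ∧
  DifferentiableOn ℂ h {z : ℂ | 1 < ‖z‖} ∧
  (∀ z : ℂ, 1 < ‖z‖ → Complex.exp (h z) = deriv ψ z) ∧
  Tendsto h (Bornology.cobounded ℂ) (𝓝 0)

/-- The integral of Q1. -/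
noncomputable def marshall (a R : ℝ) (h : ℂ → ℂ) : ℝ :=
  (1 / (2 * Real.pi)) * ∫ θ in (0:ℝ)..(2 * Real.pi),
    Real.exp (a * ‖h (circ R θ)‖ ^ 2 / Real.log (R ^ 2 / (R ^ 2 - 1)))

/-- `f` is holomorphic on `|z| > 1` with the value `c` at infinity. -/
def Holo (f : ℂ → ℂ) (c : ℂ) : Prop :=
  DifferentiableOn ℂ f {z : ℂ | 1 < ‖z‖} ∧ Tendsto f (Bornology.cobounded ℂ) (𝓝 c)

/-- The decomposition of `h`: `z h' = ∑ k_j (P_j - 1) + α z p'/p + z b' + z e'`. -/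
def Decomposed (K A μ : ℝ) (c : ℂ) (M E : ℝ) (h : ℂ → ℂ) : Prop :=
  ∃ (n : ℕ) (k : Fin n → ℂ) (P : Fin n → ℂ → ℂ) (α c₁ d d' : ℂ) (p b e : ℂ → ℂ),
    ∑ j, ‖k j‖ ≤ K ∧ (∀ j, Holo (P j) 1 ∧ ∀ z : ℂ, 1 < ‖z‖ → 0 < (P j z).re) ∧
    ‖α‖ ≤ μ ∧ Holo p c₁ ∧ 0 < c₁.re ∧ (∀ z : ℂ, 1 < ‖z‖ → 0 < (p z).re) ∧
    Holo b d ∧ (∀ z : ℂ, 1 < ‖z‖ → ‖b z‖ ≤ A) ∧
    Holo e d' ∧ (∀ z : ℂ, 1 < ‖z‖ → ‖((1 - ‖z‖⁻¹ ^ 2 : ℝ) : ℂ) * (z * deriv e z) + c‖ ≤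
      M + E * (1 - ‖z‖⁻¹ ^ 2)) ∧
    ∀ z : ℂ, 1 < ‖z‖ → z * deriv h z =
      ∑ j, k j * (P j z - 1) + α * (z * deriv p z / p z) + z * deriv b z + z * deriv e z

/-- A holomorphic family `Ψ l ∈ Σ`, `|l| < 1`, with `h l = log (Ψ l)'`. -/
def Family (Ψ h : ℂ → ℂ → ℂ) : Prop :=
  (∀ l ∈ Metric.ball (0:ℂ) 1, IsSigma (Ψ l) (h l)) ∧
  ∀ z : ℂ, 1 < ‖z‖ → DifferentiableOn ℂ (fun l => Ψ l z) (Metric.ball 0 1)

theorem general (c : ℂ) (M E A μ a k : ℝ) (hM : 0 ≤ M) (hE : 0 ≤ E) (hA : 0 ≤ A) (hμ0 : 0 ≤ μ)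
    (hμ1 : μ ≤ 1) (ha0 : 0 < a) (ha1 : a < 1) (hk0 : 0 ≤ k) (hk1 : k < 1)
    (hcond : μ * a + (M + 8 * k / (1 + Real.sqrt (1 - k ^ 2))) * Real.sqrt a < 1) :
    ∃ δ C : ℝ, 0 < δ ∧ ∀ R : ℝ, 1 < R → ∀ Ψ h : ℂ → ℂ → ℂ, Family Ψ h →
      Decomposed (A * (R ^ 2 / (R ^ 2 - 1)) ^ δ) A μ c M E (h 0) →
      ∀ l : ℂ, ‖l‖ ≤ k → marshall a R (h l) ≤ C := by
  obtain ⟨δ, C, hδ, hC⟩ := Pool.Agent.Run7.h506.MS.main_ext2 c
    (M + Pool.Agent.Run7.h506.MS.Mk k) E A μ a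
    (add_nonneg hM (Pool.Agent.Run7.h506.MS.Mk_nonneg hk0)) hE hA hμ0 hμ1 ha0 ha1 hcond
  refine ⟨δ, C, hδ, fun R hR Ψ h hF hD l hl => ?_⟩
  have hlb : l ∈ Metric.ball (0:ℂ) 1 := mem_ball_zero_iff.2 (by linarith)
  exact hC R (Ψ l) (h l) hR (hF.1 l hlb)
    (Pool.Agent.Run7.h506.MS.fam_dec hF.1 hF.2 hD hl hk1)

theorem sixteen {a : ℝ} (ha1 : a < 1) :
    (0 : ℝ) * a + (0 + 8 * (16 / 65) / (1 + Real.sqrt (1 - (16 / 65) ^ 2))) * Real.sqrt a < 1 := by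
  have h1 : Real.sqrt (1 - (16 / 65) ^ 2) = 63 / 65 := by
    have : (1 - (16 / 65) ^ 2 : ℝ) = (63 / 65) ^ 2 := by norm_num
    rw [this, Real.sqrt_sq (by norm_num)]
  have h2 : Real.sqrt a < 1 := by
    rw [Real.sqrt_lt' one_pos]
    linarith
  rw [h1]
  norm_num
  exact h2

/-- **The strong Marshall bound in holomorphic families around structured maps.** -/
theorem result :
    -- (1) families around decomposed maps
    (∀ (c : ℂ) (M E A μ a k : ℝ), 0 ≤ M → 0 ≤ E → 0 ≤ A → 0 ≤ μ → μ ≤ 1 → 0 < a → a < 1 →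
      0 ≤ k → k < 1 → μ * a + (M + 8 * k / (1 + Real.sqrt (1 - k ^ 2))) * Real.sqrt a < 1 →
      ∃ δ C : ℝ, 0 < δ ∧ ∀ R : ℝ, 1 < R → ∀ Ψ h : ℂ → ℂ → ℂ, Family Ψ h →
        Decomposed (A * (R ^ 2 / (R ^ 2 - 1)) ^ δ) A μ c M E (h 0) →
        ∀ l : ℂ, ‖l‖ ≤ k → marshall a R (h l) ≤ C) ∧
    -- (2) families around maps with convex complement
    (∀ a : ℝ, 0 < a → a < 1 → ∃ C : ℝ, ∀ R : ℝ, 1 < R → ∀ Ψ h : ℂ → ℂ → ℂ, Family Ψ h →
      (∀ z : ℂ, 1 < ‖z‖ → 0 < (1 + z * deriv (deriv (Ψ 0)) z / deriv (Ψ 0) z).re) →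
      ∀ l : ℂ, ‖l‖ ≤ 16 / 65 → marshall a R (h l) ≤ C) ∧
    -- (3) families around Schwarz-Christoffel maps
    (∀ a A : ℝ, 0 < a → a < 1 → 0 ≤ A → ∃ δ C : ℝ, 0 < δ ∧ ∀ R : ℝ, 1 < R → ∀ Ψ h : ℂ → ℂ → ℂ,
      Family Ψ h →
      (∃ (n : ℕ) (ζ κ : Fin n → ℂ), (∀ j, ‖ζ j‖ ≤ 1) ∧
        ∑ j, ‖κ j‖ ≤ A * (R ^ 2 / (R ^ 2 - 1)) ^ δ ∧
        ∀ z : ℂ, 1 < ‖z‖ → deriv (Ψ 0) z = ∏ j, (1 - ζ j / z) ^ (κ j)) →
      ∀ l : ℂ, ‖l‖ ≤ 16 / 65 → marshall a R (h l) ≤ C) ∧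
    -- (4) families around maps with spirallike complement
    (∀ a k : ℝ, 0 < a → a < 1 → 0 ≤ k → k < 1 →
      a + 8 * k / (1 + Real.sqrt (1 - k ^ 2)) * Real.sqrt a < 1 →
      ∃ C : ℝ, ∀ R : ℝ, 1 < R → ∀ Ψ h : ℂ → ℂ → ℂ, Family Ψ h →
        (∃ w τ : ℂ, 0 < τ.re ∧ ∀ z : ℂ, 1 < ‖z‖ →
          0 < (τ * (z * deriv (Ψ 0) z / (Ψ 0 z - w))).re) →
        ∀ l : ℂ, ‖l‖ ≤ k → marshall a R (h l) ≤ C) := by
  have hq : ∀ R : ℝ, 1 < R → ∀ δ : ℝ, 0 < δ → 1 ≤ (R ^ 2 / (R ^ 2 - 1)) ^ δ := by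
    intro R hR δ hδ
    apply Real.one_le_rpow _ hδ.le
    have : 0 < R ^ 2 - 1 := by nlinarith
    rw [one_le_div this]
    linarith
  refine ⟨fun c M E A μ a k hM hE hA hμ0 hμ1 ha0 ha1 hk0 hk1 hcond =>
    general c M E A μ a k hM hE hA hμ0 hμ1 ha0 ha1 hk0 hk1 hcond, ?_, ?_, ?_⟩
  · intro a ha0 ha1
    obtain ⟨δ, C, hδ, hC⟩ := general 0 0 0 1 0 a (16 / 65) le_rfl le_rfl zero_le_one le_rfl
      zero_le_one ha0 ha1 (by norm_num) (by norm_num) (sixteen ha1)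
    refine ⟨C, fun R hR Ψ h hF hc l hl => hC R hR Ψ h hF ?_ l hl⟩
    have h0b : (0:ℂ) ∈ Metric.ball (0:ℂ) 1 := Metric.mem_ball_self one_pos
    refine Pool.Agent.Run7.h506.MS.dec_convex (hF.1 0 h0b) (fun z hz => ?_) ?_ zero_le_one
    · rw [Pool.Agent.Run7.h506.MS.dh_eq (hF.1 0 h0b) hz, ← mul_div_assoc]
      exact hc z hz
    · rw [one_mul]
      exact hq R hR δ hδ
  · intro a A ha0 ha1 hA
    obtain ⟨δ, C, hδ, hC⟩ := general 0 0 0 A 0 a (16 / 65) le_rfl le_rfl hA le_rfl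
      zero_le_one ha0 ha1 (by norm_num) (by norm_num) (sixteen ha1)
    refine ⟨δ, C, hδ, fun R hR Ψ h hF hc l hl => hC R hR Ψ h hF ?_ l hl⟩
    have h0b : (0:ℂ) ∈ Metric.ball (0:ℂ) 1 := Metric.mem_ball_self one_pos
    obtain ⟨n, ζ, κ, hζ, hκ, hprod⟩ := hc
    exact Pool.Agent.Run7.h506.MS.dec_sc (hF.1 0 h0b) ζ κ hζ hprod hκ hA
  · intro a k ha0 ha1 hk0 hk1 hcond
    obtain ⟨δ, C, hδ, hC⟩ := general 0 0 0 1 1 a k le_rfl le_rfl zero_le_one zero_le_one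
      le_rfl ha0 ha1 hk0 hk1 (by rw [one_mul, zero_add]; exact hcond)
    refine ⟨C, fun R hR Ψ h hF hc l hl => hC R hR Ψ h hF ?_ l hl⟩
    have h0b : (0:ℂ) ∈ Metric.ball (0:ℂ) 1 := Metric.mem_ball_self one_pos
    obtain ⟨w, τ, hτ, hp⟩ := hc
    refine Pool.Agent.Run7.h506.MS.dec_spiral (hF.1 0 h0b) hτ hp ?_ zero_le_one
    rw [one_mul]
    exact hq R hR δ hδ

end Pool.Agent.Results.MP_16b0ee_an.StructuredFamilies
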